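import Pool.Agent.Helper71.UN.StD

/-!
# Project UN, module FRO: families of matrices given by orthogonal frames
-/

set_option autoImplicit false

open Set Filter Topology Matrix
open scoped ContDiff ComplexConjugate

namespace Pool.Agent.Helper6.UN

open Pool.Agent.Helper71.UN

theorem fr_apply {n : ℕ} (Q : Matrix (Fin n) (Fin n) ℝ) (u : Fin n → Fin 4) (l : Fin 4) (x y : Fin n) :
    fr Q u l x y = ∑ c, if u c = l then Q x c * Q y c else 0 := by
  unfold fr
  rw [Matrix.mul_apply]
  refine Finset.sum_congr rfl fun c _ => ?_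
  rw [Matrix.mul_diagonal, Matrix.transpose_apply]
  split_ifs with h
  · rw [mul_one]
  · rw [mul_zero, zero_mul]

theorem sum_diag {n : ℕ} (u : Fin n → Fin 4) :
    ∑ l : Fin 4, (Matrix.diagonal fun a => if u a = l then (1 : ℝ) else 0) = (1 : Matrix (Fin n) (Fin n) ℝ) := by
  ext x y
  rw [Matrix.sum_apply]
  by_cases h : x = y
  · subst h
    simp
  · simp [h, Matrix.one_apply_ne h]

theorem hFRO : StFRO := by
  intro n al Q u
  refine ⟨fr_apply Q u, fun hQ hal => ?_, ?_⟩
  · have hQ' : Qᵀ * Q = 1 := mul_eq_one_comm.1 hQ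
    refine ⟨fun l => ?_, fun l => ?_, ?_, fun l a b h => ?_⟩
    · unfold fr
      rw [Matrix.transpose_mul, Matrix.transpose_mul, Matrix.transpose_transpose, Matrix.diagonal_transpose,
        Matrix.mul_assoc]
    · unfold fr
      have h1 : (Matrix.diagonal fun a => if u a = l then (1 : ℝ) else 0) *
          (Matrix.diagonal fun a => if u a = l then (1 : ℝ) else 0) =
          Matrix.diagonal fun a => if u a = l then (1 : ℝ) else 0 := by
        rw [Matrix.diagonal_mul_diagonal]
        congr 1
        funext a
        split_ifs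
        · rw [mul_one]
        · rw [mul_zero]
      calc Q * (Matrix.diagonal fun a => if u a = l then (1 : ℝ) else 0) * Qᵀ *
            (Q * (Matrix.diagonal fun a => if u a = l then (1 : ℝ) else 0) * Qᵀ)
          = Q * (Matrix.diagonal fun a => if u a = l then (1 : ℝ) else 0) * (Qᵀ * Q) *
            (Matrix.diagonal fun a => if u a = l then (1 : ℝ) else 0) * Qᵀ := by
            simp only [Matrix.mul_assoc]
        _ = Q * ((Matrix.diagonal fun a => if u a = l then (1 : ℝ) else 0) *
            (Matrix.diagonal fun a => if u a = l then (1 : ℝ) else 0)) * Qᵀ := by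
            rw [hQ', Matrix.mul_one, Matrix.mul_assoc Q]
        _ = _ := by rw [h1]
    · unfold fr
      rw [← Matrix.sum_mul, ← Matrix.mul_sum, sum_diag, Matrix.mul_one, hQ]
    · rw [fr_apply] at h
      obtain ⟨c, -, hc⟩ := Finset.exists_ne_zero_of_sum_ne_zero h
      have hcl : u c = l := by
        by_contra h1
        rw [if_neg h1] at hc
        exact hc rfl
      rw [if_pos hcl] at hc
      rw [← hcl]
      exact ⟨hal a c (left_ne_zero_of_mul hc), hal b c (right_ne_zero_of_mul hc)⟩
  · funext l
    unfold fr pu
    rw [Matrix.one_mul, Matrix.transpose_one, Matrix.mul_one]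

end Pool.Agent.Helper6.UN
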