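import Pool.Agent.Helper71.UN.StD

set_option autoImplicit false

namespace Pool.Agent.Helper6.UN

open Pool.Agent.Helper71.UN

/-- GAM (differences of the copies). -/
theorem hGAM : Pool.Agent.Helper71.UN.StGAM := by
  intro Γ η k l v₀ a a' τ s θ σ hC hadd hmul i b c hb hc
  -- subtraction
  have hneg : ∀ m u, Γ m u → Γ m (-u) := by
    intro m u hu
    have := hmul m u (-1) hu
    simpa using this
  have hsub : ∀ m u u', Γ m u → Γ m u' → Γ m (u - u') := by
    intro m u u' hu hu'
    have := hadd m u (-u') hu (hneg m u' hu')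
    rwa [← sub_eq_add_neg] at this
  have hzero : ∀ m u, Γ m u → Γ m 0 := by
    intro m u hu
    have := hmul m u 0 hu
    simpa using this
  -- differences to a base point suffice
  have hbase : ∀ m (P Q B : ℂ), Γ m (P - B) → Γ m (Q - B) → Γ m (Q - P) := by
    intro m P Q B h1 h2
    have := hsub m _ _ h2 h1
    have e : Q - B - (P - B) = Q - P := by ring
    rwa [e] at this
  set h : ℂ := -a' + (σ : ℂ) * (v₀ + a') with hh
  have p0 : pos6 v₀ a a' τ h 0 = v₀ := rfl
  have p1 : pos6 v₀ a a' τ h 1 = om * v₀ := rfl
  have p2 : pos6 v₀ a a' τ h 2 = -a := rfl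
  have p3 : pos6 v₀ a a' τ h 3 = -a' := rfl
  have p4 : pos6 v₀ a a' τ h 4 = τ := rfl
  have p5 : pos6 v₀ a a' τ h 5 = h := rfl
  have hI : ∀ m (B X : ℂ), Γ m (B + X) → Γ m (-X - B) := by
    intro m B X hX
    have := hneg m _ hX
    have e : -(B + X) = -X - B := by ring
    rwa [e] at this
  have hT : ∀ m (B : ℂ), Γ m (B + a) → Γ m (τ + a) → Γ m (τ - B) := by
    intro m B h1 h2
    have := hsub m _ _ h2 h1
    have e : τ + a - (B + a) = τ - B := by ring
    rwa [e] at this
  have hH : ∀ m, Γ m (v₀ + a') → Γ m (h - v₀) := by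
    intro m h1
    have := hmul m _ (σ - 1) h1
    have e : ((σ - 1 : ℚ) : ℂ) * (v₀ + a') = h - v₀ := by
      rw [hh]; push_cast; ring
    rwa [e] at this
  fin_cases i
  · -- label 0
    show Γ 0 _
    refine hbase 0 _ _ v₀ ?_ ?_
    · fin_cases b
      · show Γ 0 (v₀ - v₀)
        rw [sub_self]; exact hzero 0 _ hC.g1
      · exact hC.g1
      · exact hI 0 _ _ hC.g3
      · exact absurd hb (by decide)
      · exact absurd hb (by decide)
      · exact absurd hb (by decide)
    · fin_cases c
      · show Γ 0 (v₀ - v₀)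
        rw [sub_self]; exact hzero 0 _ hC.g1
      · exact hC.g1
      · exact hI 0 _ _ hC.g3
      · exact absurd hc (by decide)
      · exact absurd hc (by decide)
      · exact absurd hc (by decide)
  · -- label 1
    show Γ 1 _
    refine hbase 1 _ _ v₀ ?_ ?_
    · fin_cases b
      · show Γ 1 (v₀ - v₀)
        rw [sub_self]; exact hzero 1 _ hC.g2
      · exact hC.g2
      · exact absurd hb (by decide)
      · exact hI 1 _ _ hC.g7
      · exact absurd hb (by decide)
      · exact hH 1 hC.g7
    · fin_cases c
      · show Γ 1 (v₀ - v₀)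
        rw [sub_self]; exact hzero 1 _ hC.g2
      · exact hC.g2
      · exact absurd hc (by decide)
      · exact hI 1 _ _ hC.g7
      · exact absurd hc (by decide)
      · exact hH 1 hC.g7
  · -- label k
    show Γ k _
    refine hbase k _ _ v₀ ?_ ?_
    · fin_cases b
      · show Γ k (v₀ - v₀)
        rw [sub_self]; exact hzero k _ hC.g4
      · exact absurd hb (by decide)
      · exact hI k _ _ hC.g4
      · exact hI k _ _ hC.g8
      · exact hT k _ hC.g4 hC.g11
      · exact hH k hC.g8
    · fin_cases c
      · show Γ k (v₀ - v₀)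
        rw [sub_self]; exact hzero k _ hC.g4
      · exact absurd hc (by decide)
      · exact hI k _ _ hC.g4
      · exact hI k _ _ hC.g8
      · exact hT k _ hC.g4 hC.g11
      · exact hH k hC.g8
  · -- label l
    show Γ l _
    refine hbase l _ _ (om * v₀) ?_ ?_
    · fin_cases b
      · exact absurd hb (by decide)
      · show Γ l (om * v₀ - om * v₀)
        rw [sub_self]; exact hzero l _ hC.g6
      · exact hI l _ _ hC.g6
      · exact hI l _ _ hC.g10
      · exact hT l _ hC.g6 hC.g12
      · exact absurd hb (by decide)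
    · fin_cases c
      · exact absurd hc (by decide)
      · show Γ l (om * v₀ - om * v₀)
        rw [sub_self]; exact hzero l _ hC.g6
      · exact hI l _ _ hC.g6
      · exact hI l _ _ hC.g10
      · exact hT l _ hC.g6 hC.g12
      · exact absurd hc (by decide)

end Pool.Agent.Helper6.UN
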