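import Mathlib

/-!
# Limits along an ultrafilter of probability measures on the subsets of a countable set

For a family of probability measures on `Set ι` indexed by the finite subsets of `ι` there are an ultrafilter finer
than `atTop` and a limit measure, such that the probabilities of all events depending on finitely many coordinates
converge.
-/

set_option autoImplicit false

open MeasureTheory Filter Topology

namespace Pool.Agent.Helper6.UN

universe u

/-- The transport of subsets to functions with values in `Bool`. -/
noncomputable def toB {ι : Type u} (w : Set ι) : ι → Bool := fun i => @decide (i ∈ w) (Classical.dec _)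

/-- The inverse transport. -/
def ofB {ι : Type u} (f : ι → Bool) : Set ι := {i | f i = true}

theorem ofB_toB {ι : Type u} (w : Set ι) : ofB (toB w) = w := by
  ext i
  simp [ofB, toB]

theorem measurable_toB {ι : Type u} : Measurable (toB : Set ι → ι → Bool) := by
  refine measurable_pi_iff.2 fun i => ?_
  have h1 : Measurable fun p : Prop => @decide p (Classical.dec _) := measurable_from_top
  exact h1.comp (measurable_set_mem i)

theorem measurable_ofB {ι : Type u} : Measurable (ofB : (ι → Bool) → Set ι) := by
  refine measurable_set_iff.2 fun i => ?_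
  have h1 : Measurable fun b : Bool => (b = true : Prop) := measurable_from_top
  exact h1.comp (measurable_pi_apply i)

/-- An event that depends on finitely many coordinates is clopen. -/
theorem isClopen_cyl {ι : Type u} (K : Finset ι) (P : Set ι → Prop) :
    IsClopen {f : ι → Bool | P (ofB f ∩ (K : Set ι))} := by
  have h1 : Continuous fun (f : ι → Bool) (i : K) => f i := continuous_pi fun i => continuous_apply _
  have h2 : {f : ι → Bool | P (ofB f ∩ (K : Set ι))} =
      (fun (f : ι → Bool) (i : K) => f i) ⁻¹' {h : K → Bool | P {i | ∃ hi : i ∈ K, h ⟨i, hi⟩ = true}} := by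
    ext f
    have h3 : ofB f ∩ (K : Set ι) = {i | ∃ hi : i ∈ K, f i = true} := by
      ext i
      simp only [ofB, Set.mem_inter_iff, Set.mem_ofPred_eq, Finset.mem_coe, exists_prop]
      exact and_comm
    simp only [Set.mem_ofPred_eq, Set.mem_preimage, h3]
  rw [h2]
  exact (isClopen_discrete _).preimage h1

/-- The family of measures has a limit along some ultrafilter finer than `atTop`. -/
def StLIM : Prop :=
  ∀ (ι : Type u) [Countable ι] (m : Finset ι → Measure (Set ι)), (∀ F, IsProbabilityMeasure (m F)) →
    ∃ (U : Ultrafilter (Finset ι)) (μ : Measure (Set ι)), (U : Filter (Finset ι)) ≤ Filter.atTop ∧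
      IsProbabilityMeasure μ ∧ ∀ (K : Finset ι) (P : Set ι → Prop),
        Filter.Tendsto (fun F => m F {w | P (w ∩ (K : Set ι))}) U (nhds (μ {w | P (w ∩ (K : Set ι))}))

theorem measurableSet_cyl {ι : Type u} [Countable ι] (K : Finset ι) (P : Set ι → Prop) :
    MeasurableSet {w : Set ι | P (w ∩ (K : Set ι))} := by
  have h1 : {w : Set ι | P (w ∩ (K : Set ι))} = toB ⁻¹' {f : ι → Bool | P (ofB f ∩ (K : Set ι))} := by
    ext w
    simp only [Set.mem_ofPred_eq, Set.mem_preimage, ofB_toB]
  rw [h1]
  exact measurable_toB (isClopen_cyl K P).1.measurableSet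

theorem hLIM : StLIM.{u} := by
  intro ι _ m hm
  have hc : ∀ F, IsProbabilityMeasure ((m F).map toB) := fun F =>
    Measure.isProbabilityMeasure_map measurable_toB.aemeasurable
  let M : Finset ι → ProbabilityMeasure (ι → Bool) := fun F => ⟨(m F).map toB, hc F⟩
  let U : Ultrafilter (Finset ι) := Ultrafilter.of atTop
  obtain ⟨L, -, hL⟩ := isCompact_univ.ultrafilter_le_nhds (U.map M) (by simp)
  have hL' : Tendsto M (U : Filter (Finset ι)) (𝓝 L) := hL
  refine ⟨U, (L : Measure (ι → Bool)).map ofB, Ultrafilter.of_le _,
    Measure.isProbabilityMeasure_map measurable_ofB.aemeasurable, fun K P => ?_⟩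
  have h1 := ProbabilityMeasure.tendsto_measure_of_null_frontier_of_tendsto' hL' (E := {f : ι → Bool |
    P (ofB f ∩ (K : Set ι))}) (by rw [(isClopen_cyl K P).frontier_eq, measure_empty])
  have h2 : ∀ F, ((M F : ProbabilityMeasure (ι → Bool)) : Measure (ι → Bool))
      {f : ι → Bool | P (ofB f ∩ (K : Set ι))} = m F {w | P (w ∩ (K : Set ι))} := by
    intro F
    change ((m F).map toB) _ = _
    rw [Measure.map_apply measurable_toB (isClopen_cyl K P).1.measurableSet]
    congr 1
    ext w
    simp only [Set.mem_ofPred_eq, Set.mem_preimage, ofB_toB]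
  have h3 : ((L : Measure (ι → Bool)).map ofB) {w | P (w ∩ (K : Set ι))} =
      (L : Measure (ι → Bool)) {f : ι → Bool | P (ofB f ∩ (K : Set ι))} := by
    rw [Measure.map_apply measurable_ofB (measurableSet_cyl K P)]
    rfl
  rw [h3]
  simpa only [h2] using h1

end Pool.Agent.Helper6.UN
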